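import Pool.Agent.W798.SP.Basic

/-!
# Sum-product: the final row
-/

set_option autoImplicit false
set_option linter.unusedSectionVars false

open Finset
open scoped Classical Pointwise

namespace Pool.Agent.W338.SP.FI

open Pool.Agent.W904.AK Pool.Agent.W798.SP

/-- The condition. -/
def QQ {Ω : Type} (L : Ω → Fin 4 → ℝ) (xa ya xb yb : Ω → ℝ) (ω : Ω) :
    (Fin 4 → ℝ) × ((ℝ × ℝ) × (ℝ × ℝ)) := (L ω, ((xa ω, ya ω), (xb ω, yb ω)))

/-- The four products. -/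
def ff {Ω : Type} (v : Fin 3 → Ω → ℝ) (ma mb : Ω → ℝ) (ω : Ω) : (ℝ × ℝ) × (ℝ × ℝ) :=
  ((v 0 ω * ma ω, v 1 ω * mb ω), (v 2 ω * ma ω, v 2 ω * mb ω))

lemma step23 {Ω : Type} [Fintype Ω] {p : Ω → ℝ} (hp : IsLaw p) (L : Ω → Fin 4 → ℝ)
    (v : Fin 3 → Ω → ℝ) (xa ya ma xb yb mb : Ω → ℝ) (D ca cb : ℝ)
    (h0 : ∀ ω, p ω ≠ 0 → v 2 ω ≠ 0 ∧ ma ω ≠ 0 ∧ mb ω ≠ 0)
    (hQ : H p (QQ L xa ya xb yb) ≤ H p L + ca + cb)
    (hQZ : H p (fun ω => (QQ L xa ya xb yb ω, zz v ω)) = H p (fun ω => (L ω, zz v ω)) + ca + cb)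
    (hD : H p (fun ω => (QQ L xa ya xb yb ω, zz v ω)) + D ≤
      H p (fun ω => ((QQ L xa ya xb yb ω, zz v ω), (ma ω, mb ω)))) :
    CH p L (fun ω => v 0 ω / v 2 ω) + D ≤ CH p (QQ L xa ya xb yb) (ff v ma mb) := by
  -- step 2
  have s2 := submod' hp (f := fun ω => (L ω, zz v ω))
    (g := fun ω => (QQ L xa ya xb yb ω, v 0 ω / v 2 ω))
    (h := fun ω => (L ω, v 0 ω / v 2 ω)) (k := fun ω => (QQ L xa ya xb yb ω, zz v ω))
    (Det.mk' (fun t => (t.1, t.2 0 / t.2 2)) fun ω _ => rfl)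
    (Det.mk' (fun t => (t.1.1, t.2)) fun ω _ => rfl)
    (Det.mk' (fun t => (t.2.1, t.1.2)) fun ω _ => rfl)
  -- step 3
  have s3 := submod' hp (f := fun ω => (QQ L xa ya xb yb ω, ff v ma mb ω))
    (g := fun ω => (QQ L xa ya xb yb ω, zz v ω))
    (h := fun ω => (QQ L xa ya xb yb ω, v 0 ω / v 2 ω))
    (k := fun ω => ((QQ L xa ya xb yb ω, zz v ω), (ma ω, mb ω)))
    (Det.mk' (fun t => (t.1, t.2.1.1 / t.2.2.1)) fun ω hω => by
      obtain ⟨h2, ha, hb⟩ := h0 ω hω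
      show (QQ L xa ya xb yb ω, v 0 ω / v 2 ω) =
        (QQ L xa ya xb yb ω, (v 0 ω * ma ω) / (v 2 ω * ma ω))
      rw [mul_div_mul_right _ _ ha])
    (Det.mk' (fun t => (t.1, t.2 0 / t.2 2)) fun ω _ => rfl)
    (Det.mk' (fun t => ((t.1.1, t.2.2), (t.1.2.2.1 / t.2.2 2, t.1.2.2.2 / t.2.2 2)))
      fun ω hω => by
      obtain ⟨h2, ha, hb⟩ := h0 ω hω
      show ((QQ L xa ya xb yb ω, zz v ω), (ma ω, mb ω)) =
        ((QQ L xa ya xb yb ω, zz v ω), ((v 2 ω * ma ω) / v 2 ω, (v 2 ω * mb ω) / v 2 ω))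
      rw [mul_div_cancel_left₀ _ h2, mul_div_cancel_left₀ _ h2])
  unfold CH
  linarith

/-- The slope and the intercept. -/
noncomputable def lin (q : (Fin 4 → ℝ) × ((ℝ × ℝ) × (ℝ × ℝ))) (a b : ℝ) : ℝ × ℝ :=
  (-((q.1 0 - q.1 3) / (q.1 1 - q.1 3)) * (b / a), (q.1 2 - q.1 3) / (q.1 1 - q.1 3) * b)

lemma step4 (h1 : S_STC) (h2 : S_GC) (A : Finset ℝ) {Ω : Type} [Fintype Ω] {p : Ω → ℝ}
    (hp : IsLaw p) (L : Ω → Fin 4 → ℝ) (v : Fin 3 → Ω → ℝ) (xa ya ma xb yb mb : Ω → ℝ)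
    (h0 : ∀ ω, p ω ≠ 0 → v 2 ω ≠ 0 ∧ ma ω ≠ 0 ∧ mb ω ≠ 0)
    (hx : ∀ ω, p ω ≠ 0 → xa ω ≠ 0 ∧ ya ω ≠ 0 ∧ xb ω ≠ 0 ∧ yb ω ≠ 0)
    (hL : ∀ ω, p ω ≠ 0 → L ω 0 ≠ L ω 3 ∧ L ω 1 ≠ L ω 3 ∧ L ω 2 ≠ L ω 3)
    (hr : ∀ ω, p ω ≠ 0 → (L ω 0 - L ω 3) * v 0 ω + (L ω 1 - L ω 3) * v 1 ω =
      (L ω 2 - L ω 3) * v 2 ω)
    (hm : ∀ ω, p ω ≠ 0 → v 0 ω * ma ω * xa ω ∈ A * A ∧ v 2 ω * ma ω * ya ω ∈ A * A ∧
      v 1 ω * mb ω * xb ω ∈ A * A ∧ v 2 ω * mb ω * yb ω ∈ A * A) :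
    3 * CH p (QQ L xa ya xb yb) (ff v ma mb) ≤
      8 * Real.log (A * A).card + Cst (A * A).card := by
  set Q := QQ L xa ya xb yb with hQ
  set N := (A * A).card with hN
  set sk : Ω → ℝ × ℝ := fun ω => lin (Q ω) (v 2 ω * ma ω) (v 2 ω * mb ω) with hsk
  set X : (Fin 4 → ℝ) × ((ℝ × ℝ) × (ℝ × ℝ)) → Finset ℝ :=
    fun q => (A * A).image fun t => t / q.2.1.1 with hX
  set Y : (Fin 4 → ℝ) × ((ℝ × ℝ) × (ℝ × ℝ)) → Finset ℝ :=
    fun q => (A * A).image fun t => t / q.2.2.1 with hY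
  set F : (Fin 4 → ℝ) × ((ℝ × ℝ) × (ℝ × ℝ)) → Finset (ℝ × ℝ) :=
    fun q => ((A * A) ×ˢ (A * A)).image fun t => lin q (t.1 / q.2.1.2) (t.2 / q.2.2.2) with hF
  have cX : ∀ q, (X q).card ≤ N := fun q => Finset.card_image_le
  have cY : ∀ q, (Y q).card ≤ N := fun q => Finset.card_image_le
  have cF : ∀ q, (F q).card ≤ N * N := fun q =>
    Finset.card_image_le.trans (by rw [Finset.card_product])
  have cF' : ∀ q, (F q).card ≤ (N * N) ^ 2 := fun q =>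
    (cF q).trans (by
      rcases Nat.eq_zero_or_pos (N * N) with h | h
      · rw [h]; norm_num
      · nlinarith)
  have mF : ∀ ω, p ω ≠ 0 → sk ω ∈ F (Q ω) := by
    intro ω hω
    obtain ⟨x1, x2, x3, x4⟩ := hx ω hω
    obtain ⟨m1, m2, m3, m4⟩ := hm ω hω
    refine Finset.mem_image.2 ⟨(v 2 ω * ma ω * ya ω, v 2 ω * mb ω * yb ω),
      Finset.mem_product.2 ⟨m2, m4⟩, ?_⟩
    show lin (Q ω) (v 2 ω * ma ω * ya ω / ya ω) (v 2 ω * mb ω * yb ω / yb ω) = _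
    rw [mul_div_cancel_right₀ _ x2, mul_div_cancel_right₀ _ x4]
  have st := h1 p Q (fun ω => v 0 ω * ma ω) (fun ω => v 1 ω * mb ω) (fun ω => (sk ω).1)
    (fun ω => (sk ω).2) N N X Y F hp cX cY cF' (by
      intro ω hω
      obtain ⟨x1, x2, x3, x4⟩ := hx ω hω
      obtain ⟨m1, m2, m3, m4⟩ := hm ω hω
      obtain ⟨v2, a0, b0⟩ := h0 ω hω
      obtain ⟨l0, l1, l2⟩ := hL ω hω
      have l0' := sub_ne_zero.2 l0
      have l1' := sub_ne_zero.2 l1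
      refine ⟨Finset.mem_image.2 ⟨v 0 ω * ma ω * xa ω, m1, ?_⟩,
        Finset.mem_image.2 ⟨v 1 ω * mb ω * xb ω, m3, ?_⟩, ?_, ?_, mF ω hω⟩
      · exact mul_div_cancel_right₀ _ x1
      · exact mul_div_cancel_right₀ _ x3
      · show -((L ω 0 - L ω 3) / (L ω 1 - L ω 3)) * (v 2 ω * mb ω / (v 2 ω * ma ω)) ≠ 0
        exact mul_ne_zero (neg_ne_zero.2 (div_ne_zero l0' l1'))
          (div_ne_zero (mul_ne_zero v2 b0) (mul_ne_zero v2 a0))
      · show v 1 ω * mb ω = -((L ω 0 - L ω 3) / (L ω 1 - L ω 3)) *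
          (v 2 ω * mb ω / (v 2 ω * ma ω)) * (v 0 ω * ma ω) +
          (L ω 2 - L ω 3) / (L ω 1 - L ω 3) * (v 2 ω * mb ω)
        have r := hr ω hω
        field_simp
        linear_combination r)
  have gc := h2 p Q sk (fun _ : Ω => ()) F (fun _ _ => {()}) 0 ((N : ℝ) * N) hp
    (fun ω hω => ⟨mF ω hω, Finset.mem_singleton_self _⟩) (fun ω _ => by
      have := cF (Q ω)
      have h3 : (((F (Q ω)).card : ℕ) : ℝ) ≤ ((N * N : ℕ) : ℝ) := by exact_mod_cast this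
      push_cast at h3
      simpa using h3)
  have hmono : CH p Q (ff v ma mb) ≤ CH p Q (fun ω => (((sk ω).1, (sk ω).2),
      ((v 0 ω * ma ω), (v 1 ω * mb ω)))) := by
    refine CH_mono hp (Det.mk' (fun t => (t.2.2,
      (-(t.2.1.2 * ((t.1.1 1 - t.1.1 3) / (t.1.1 2 - t.1.1 3))) * (t.1.1 0 - t.1.1 3) /
        ((t.1.1 1 - t.1.1 3) * t.2.1.1),
        t.2.1.2 * ((t.1.1 1 - t.1.1 3) / (t.1.1 2 - t.1.1 3))))) ?_)
    intro ω hω
    obtain ⟨v2, a0, b0⟩ := h0 ω hω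
    obtain ⟨l0, l1, l2⟩ := hL ω hω
    have l0' := sub_ne_zero.2 l0
    have l1' := sub_ne_zero.2 l1
    have l2' := sub_ne_zero.2 l2
    have e2 : (L ω 2 - L ω 3) / (L ω 1 - L ω 3) * (v 2 ω * mb ω) *
        ((L ω 1 - L ω 3) / (L ω 2 - L ω 3)) = v 2 ω * mb ω := by
      field_simp
    have e1 : -(v 2 ω * mb ω) * (L ω 0 - L ω 3) / ((L ω 1 - L ω 3) *
        (-((L ω 0 - L ω 3) / (L ω 1 - L ω 3)) * (v 2 ω * mb ω / (v 2 ω * ma ω)))) =
        v 2 ω * ma ω := by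
      field_simp
    show ((v 0 ω * ma ω, v 1 ω * mb ω), (v 2 ω * ma ω, v 2 ω * mb ω)) =
      ((v 0 ω * ma ω, v 1 ω * mb ω), (-((L ω 2 - L ω 3) / (L ω 1 - L ω 3) * (v 2 ω * mb ω) *
        ((L ω 1 - L ω 3) / (L ω 2 - L ω 3))) * (L ω 0 - L ω 3) / ((L ω 1 - L ω 3) *
        (-((L ω 0 - L ω 3) / (L ω 1 - L ω 3)) * (v 2 ω * mb ω / (v 2 ω * ma ω)))),
        (L ω 2 - L ω 3) / (L ω 1 - L ω 3) * (v 2 ω * mb ω) *
        ((L ω 1 - L ω 3) / (L ω 2 - L ω 3))))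
    rw [e2, e1]
  have hlog : Real.log ((N : ℝ) * N) = 2 * Real.log N := by
    rw [← sq, Real.log_pow]
    push_cast
    ring
  have hsk' : CH p Q (fun ω => ((sk ω).1, (sk ω).2)) = CH p Q sk := rfl
  rw [hsk', hlog] at st
  rw [hlog] at gc
  push_cast at gc
  linarith

theorem tFI (h1 : S_STC) (h2 : S_GC) : S_FI := by
  intro Ω _ A p l u n D₀ D₁ hA hB e0 e1
  obtain ⟨Ωa, _, pa, La, va, xa, ya, ma, hpa, ia, sa, ca, da⟩ := e0
  obtain ⟨Ωb, _, pb, Lb, vb, xb, yb, mb, hpb, ib, sb, cb, db⟩ := e1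
  have hfg : ∀ c, im pa (fun ω => (La ω, zz va ω)) c = im pb (fun ω => (Lb ω, zz vb ω)) c :=
    fun c => (ia c).trans (ib c).symm
  set P := glue pa pb (fun ω => (La ω, zz va ω)) (fun ω => (Lb ω, zz vb ω)) with hP
  have hPl : IsLaw P := glue_law hpa hpb hfg
  -- the support
  have hsup : ∀ z, P z ≠ 0 → pa z.1 ≠ 0 ∧ pb z.2 ≠ 0 ∧ La z.1 = Lb z.2 ∧
      ∀ i, va i z.1 = vb i z.2 := by
    intro z hz
    obtain ⟨e, z1, z2⟩ := glue_supp hz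
    exact ⟨z1, z2, congrArg Prod.fst e, fun i => congrFun (congrArg Prod.snd e) i⟩
  have hbase : ∀ x, pa x ≠ 0 → va 2 x ≠ 0 ∧
      (La x 0 ≠ La x 3 ∧ La x 1 ≠ La x 3 ∧ La x 2 ≠ La x 3) ∧
      (La x 0 - La x 3) * va 0 x + (La x 1 - La x 3) * va 1 x = (La x 2 - La x 3) * va 2 x := by
    intro x hx
    obtain ⟨ω, hω, e⟩ := supp_of_im hpa ia hx
    have e1 : zz l ω = La x := congrArg Prod.fst e
    have e2 : zz u ω = zz va x := congrArg Prod.snd e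
    have f1 : ∀ i, l i ω = La x i := fun i => congrFun e1 i
    have f2 : ∀ i, u i ω = va i x := fun i => congrFun e2 i
    refine ⟨?_, ⟨?_, ?_, ?_⟩, ?_⟩
    · rw [← f2]
      have := hB.mem ω hω 2
      exact (hA _ (Finset.mem_filter.1 this).1).ne'
    · rw [← f1, ← f1]
      exact hB.ne ω hω 0
    · rw [← f1, ← f1]
      exact hB.ne ω hω 1
    · rw [← f1, ← f1]
      exact hB.ne ω hω 2
    · rw [← f1, ← f1, ← f1, ← f1, ← f2, ← f2, ← f2]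
      exact hB.rel ω hω
  -- entropies
  have E0 : H P (fun z => ((fun ω => (La ω, zz va ω)) z.1)) = H pa (fun ω => (La ω, zz va ω)) :=
    H_glue_fst hpa hfg (fun ω => (La ω, zz va ω))
  have Eg : H pb (fun ω => (Lb ω, zz vb ω)) = H pa (fun ω => (La ω, zz va ω)) :=
    (H_eq_of_im_eq hfg).symm
  have Ra : H pa (fun ω => ((La ω, zz va ω), (xa ω, ya ω))) =
      H pa (fun ω => (La ω, zz va ω)) + CH pa La (fun ω => (xa ω, ya ω)) := by
    have : H pa (fun ω => ((La ω, zz va ω), (xa ω, ya ω))) =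
        H pa (fun ω => (La ω, (zz va ω, (xa ω, ya ω)))) :=
      H_congr hpa (Det.mk' (fun t => (t.1.1, (t.1.2, t.2))) fun ω _ => rfl)
        (Det.mk' (fun t => ((t.1, t.2.1), t.2.2)) fun ω _ => rfl)
    rw [this]
    unfold CH at ca ⊢
    linarith
  have Rb : H pb (fun ω => ((Lb ω, zz vb ω), (xb ω, yb ω))) =
      H pb (fun ω => (Lb ω, zz vb ω)) + CH pb Lb (fun ω => (xb ω, yb ω)) := by
    have : H pb (fun ω => ((Lb ω, zz vb ω), (xb ω, yb ω))) =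
        H pb (fun ω => (Lb ω, (zz vb ω, (xb ω, yb ω)))) :=
      H_congr hpb (Det.mk' (fun t => (t.1.1, (t.1.2, t.2))) fun ω _ => rfl)
        (Det.mk' (fun t => ((t.1, t.2.1), t.2.2)) fun ω _ => rfl)
    rw [this]
    unfold CH at cb ⊢
    linarith
  have G1 : H P (fun z => (((La z.1, zz va z.1), (xa z.1, ya z.1)),
      ((Lb z.2, zz vb z.2), (xb z.2, yb z.2)))) =
      H pa (fun ω => ((La ω, zz va ω), (xa ω, ya ω))) +
      H pb (fun ω => ((Lb ω, zz vb ω), (xb ω, yb ω))) - H pa (fun ω => (La ω, zz va ω)) :=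
    H_glue hpa hpb hfg (u := fun ω => ((La ω, zz va ω), (xa ω, ya ω)))
      (v := fun ω => ((Lb ω, zz vb ω), (xb ω, yb ω))) (Det.fst _ _ _) (Det.fst _ _ _)
  have G2 : H P (fun z => ((((La z.1, zz va z.1), (xa z.1, ya z.1)), ma z.1),
      (((Lb z.2, zz vb z.2), (xb z.2, yb z.2)), mb z.2))) =
      H pa (fun ω => (((La ω, zz va ω), (xa ω, ya ω)), ma ω)) +
      H pb (fun ω => (((Lb ω, zz vb ω), (xb ω, yb ω)), mb ω)) -
      H pa (fun ω => (La ω, zz va ω)) :=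
    H_glue hpa hpb hfg (u := fun ω => (((La ω, zz va ω), (xa ω, ya ω)), ma ω))
      (v := fun ω => (((Lb ω, zz vb ω), (xb ω, yb ω)), mb ω))
      ((Det.fst _ _ _).trans (Det.fst _ _ _)) ((Det.fst _ _ _).trans (Det.fst _ _ _))
  -- the variables on the product
  set L : Ωa × Ωb → Fin 4 → ℝ := fun z => La z.1 with hLd
  set v : Fin 3 → Ωa × Ωb → ℝ := fun i z => va i z.1 with hvd
  have eqz : ∀ z : Ωa × Ωb, P z ≠ 0 → (La z.1 = Lb z.2 ∧ zz va z.1 = zz vb z.2) := fun z hz =>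
    ⟨(hsup z hz).2.2.1, funext fun i => (hsup z hz).2.2.2 i⟩
  have C1 : H P (fun z => (QQ L (fun z => xa z.1) (fun z => ya z.1) (fun z => xb z.2)
      (fun z => yb z.2) z, zz v z)) = H P (fun z => (((La z.1, zz va z.1), (xa z.1, ya z.1)),
      ((Lb z.2, zz vb z.2), (xb z.2, yb z.2)))) :=
    H_congr hPl
      (Det.mk' (fun t => (((t.1.1, t.2), t.1.2.1), ((t.1.1, t.2), t.1.2.2))) fun z hz => by
        obtain ⟨a1, a2⟩ := eqz z hz
        show _ = (((La z.1, zz va z.1), (xa z.1, ya z.1)), ((La z.1, zz va z.1), (xb z.2, yb z.2)))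
        rw [a1, a2])
      (Det.mk' (fun t => ((t.1.1.1, (t.1.2, t.2.2)), t.1.1.2)) fun z _ => rfl)
  have C2 : H P (fun z => ((QQ L (fun z => xa z.1) (fun z => ya z.1) (fun z => xb z.2)
      (fun z => yb z.2) z, zz v z), (ma z.1, mb z.2))) =
      H P (fun z => ((((La z.1, zz va z.1), (xa z.1, ya z.1)), ma z.1),
      (((Lb z.2, zz vb z.2), (xb z.2, yb z.2)), mb z.2))) :=
    H_congr hPl
      (Det.mk' (fun t => ((((t.1.1.1, t.1.2), t.1.1.2.1), t.2.1),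
        (((t.1.1.1, t.1.2), t.1.1.2.2), t.2.2))) fun z hz => by
        obtain ⟨a1, a2⟩ := eqz z hz
        show _ = ((((La z.1, zz va z.1), (xa z.1, ya z.1)), ma z.1),
          (((La z.1, zz va z.1), (xb z.2, yb z.2)), mb z.2))
        rw [a1, a2])
      (Det.mk' (fun t => (((t.1.1.1.1, (t.1.1.2, t.2.1.2)), t.1.1.1.2), (t.1.2, t.2.2)))
        fun z _ => rfl)
  have C3 : CH P L (fun z => (xa z.1, ya z.1)) = CH pa La (fun ω => (xa ω, ya ω)) := by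
    unfold CH
    rw [← H_glue_fst hpa hfg La, ← H_glue_fst hpa hfg (fun ω => (La ω, (xa ω, ya ω)))]
  have C4 : CH P L (fun z => (xb z.2, yb z.2)) = CH pb Lb (fun ω => (xb ω, yb ω)) := by
    have : CH P L (fun z => (xb z.2, yb z.2)) = CH P (fun z => Lb z.2) (fun z => (xb z.2, yb z.2)) :=
      CH_congr hPl (Det.mk' (fun t => t) fun z hz => ((eqz z hz).1).symm)
        (Det.mk' (fun t => t) fun z hz => (eqz z hz).1) (Det.snd _ _ _) (Det.snd _ _ _)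
    rw [this]
    unfold CH
    rw [← H_glue_snd hpb hfg Lb, ← H_glue_snd hpb hfg (fun ω => (Lb ω, (xb ω, yb ω)))]
  have hQ : H P (QQ L (fun z => xa z.1) (fun z => ya z.1) (fun z => xb z.2)
      (fun z => yb z.2)) ≤ H P L + CH pa La (fun ω => (xa ω, ya ω)) +
        CH pb Lb (fun ω => (xb ω, yb ω)) := by
    have h3 := CH_subadd hPl (Q := L) (f := fun z => (xa z.1, ya z.1))
      (g := fun z => (xb z.2, yb z.2)) (k := fun z => ((xa z.1, ya z.1), (xb z.2, yb z.2)))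
      (Det.snd _ _ _)
    rw [C3, C4] at h3
    have h4 : CH P L (fun z => ((xa z.1, ya z.1), (xb z.2, yb z.2))) =
      H P (QQ L (fun z => xa z.1) (fun z => ya z.1) (fun z => xb z.2)
      (fun z => yb z.2)) - H P L := rfl
    linarith
  have hLZ : H P (fun z => (L z, zz v z)) = H pa (fun ω => (La ω, zz va ω)) := E0
  have A1 := step23 hPl L v (fun z => xa z.1) (fun z => ya z.1) (fun z => ma z.1)
    (fun z => xb z.2) (fun z => yb z.2) (fun z => mb z.2) (D₀ + D₁)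
    (CH pa La (fun ω => (xa ω, ya ω))) (CH pb Lb (fun ω => (xb ω, yb ω)))
    (fun z hz => by
      obtain ⟨z1, z2, -, -⟩ := hsup z hz
      exact ⟨(hbase z.1 z1).1, (sa z.1 z1).2.2.1, (sb z.2 z2).2.2.1⟩)
    hQ (by rw [C1, G1, hLZ]; linarith)
    (by
      rw [C1, C2, G1, G2]
      unfold CH at da db
      linarith)
  have A2 := step4 h1 h2 A hPl L v (fun z => xa z.1) (fun z => ya z.1) (fun z => ma z.1)
    (fun z => xb z.2) (fun z => yb z.2) (fun z => mb z.2)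
    (fun z hz => by
      obtain ⟨z1, z2, -, -⟩ := hsup z hz
      exact ⟨(hbase z.1 z1).1, (sa z.1 z1).2.2.1, (sb z.2 z2).2.2.1⟩)
    (fun z hz => by
      obtain ⟨z1, z2, -, -⟩ := hsup z hz
      exact ⟨(sa z.1 z1).1, (sa z.1 z1).2.1, (sb z.2 z2).1, (sb z.2 z2).2.1⟩)
    (fun z hz => (hbase z.1 (hsup z hz).1).2.1) (fun z hz => (hbase z.1 (hsup z hz).1).2.2)
    (fun z hz => by
      obtain ⟨z1, z2, -, hv⟩ := hsup z hz
      refine ⟨(sa z.1 z1).2.2.2.1, (sa z.1 z1).2.2.2.2, ?_, ?_⟩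
      · show va 1 z.1 * mb z.2 * xb z.2 ∈ A * A
        rw [hv 1]
        exact (sb z.2 z2).2.2.2.1
      · show va 2 z.1 * mb z.2 * yb z.2 ∈ A * A
        rw [hv 2]
        exact (sb z.2 z2).2.2.2.2)
  have A3 : CH P L (fun z => v 0 z / v 2 z) = CH p (zz l) (fun ω => u 0 ω / u 2 ω) := by
    have h3 : ∀ a, im P (fun z => (L z, zz v z)) a = im p (fun ω => (zz l ω, zz u ω)) a :=
      fun a => (im_glue_fst hpa hfg (fun ω => (La ω, zz va ω)) a).trans (ia a)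
    exact CH_of_im' h3 (fun t => t.2 0 / t.2 2)
  rw [A3] at A1
  linarith

end Pool.Agent.W338.SP.FI
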